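import Mathlib

set_option autoImplicit false

namespace Pool.Agent.Results.MP_a2c218_gt.Sigma

open Set Filter Topology

/-- An `ω`-cover: open sets, none equal to the space, every finite set inside a member. -/
def OmegaCover {X : Type} [TopologicalSpace X] (U : Set (Set X)) : Prop :=
  (∀ u ∈ U, IsOpen u) ∧ univ ∉ U ∧ ∀ F : Set X, F.Finite → ∃ u ∈ U, F ⊆ u

/-- A `k`-cover: open sets, none equal to the space, every compact set inside a member. -/
def KCover {X : Type} [TopologicalSpace X] (U : Set (Set X)) : Prop :=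
  (∀ u ∈ U, IsOpen u) ∧ univ ∉ U ∧ ∀ K : Set X, IsCompact K → ∃ u ∈ U, K ⊆ u

def OmegaLindelof (X : Type) [TopologicalSpace X] : Prop :=
  ∀ U : Set (Set X), OmegaCover U → ∃ V ⊆ U, V.Countable ∧ OmegaCover V

def KLindelof (X : Type) [TopologicalSpace X] : Prop :=
  ∀ U : Set (Set X), KCover U → ∃ V ⊆ U, V.Countable ∧ KCover V

theorem omega_of_sigma (X : Type) [TopologicalSpace X] [SigmaCompactSpace X] :
    OmegaLindelof X := by
  intro U ⟨h1, h2, h3⟩
  have key : ∀ m : ℕ, ∃ V : Set (Set X), V ⊆ U ∧ V.Countable ∧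
      ∀ x : Fin m → X, ∃ u ∈ V, range x ⊆ u := by
    intro m
    have hL : IsLindelof (univ : Set (Fin m → X)) := isLindelof_univ
    obtain ⟨r, hr, hc⟩ := hL.elim_countable_subcover
      (fun u : U => {x : Fin m → X | ∀ i, x i ∈ u.1})
      (fun u => by
        have : {x : Fin m → X | ∀ i, x i ∈ u.1} = ⋂ i, (fun x => x i) ⁻¹' u.1 := by
          ext x; simp
        rw [this]
        exact isOpen_iInter_of_finite fun i => (h1 u.1 u.2).preimage (continuous_apply i))
      (fun x _ => by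
        obtain ⟨u, hu, hx⟩ := h3 (range x) (finite_range x)
        exact mem_iUnion.2 ⟨⟨u, hu⟩, fun i => hx ⟨i, rfl⟩⟩)
    refine ⟨Subtype.val '' r, ?_, hr.image _, fun x => ?_⟩
    · rintro _ ⟨u, -, rfl⟩; exact u.2
    · obtain ⟨u, hu, hx⟩ := mem_iUnion₂.1 (hc (mem_univ x))
      exact ⟨u.1, ⟨u, hu, rfl⟩, by rintro _ ⟨i, rfl⟩; exact hx i⟩
  choose V hV1 hV2 hV3 using key
  have hs : (⋃ m, V m) ⊆ U := iUnion_subset hV1
  refine ⟨⋃ m, V m, hs, countable_iUnion hV2, fun u hu => h1 u (hs hu), fun h => h2 (hs h),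
    fun F hF => ?_⟩
  obtain ⟨m, f, hf⟩ := hF.fin_embedding
  obtain ⟨u, hu, hx⟩ := hV3 m f
  exact ⟨u, mem_iUnion.2 ⟨m, hu⟩, hf ▸ hx⟩

abbrev D : Type := (ℕ → ℕ) ⊕ ℕ

/-- Finitely supported functions on a set of size continuum. -/
abbrev X : Type := {x : D → ℕ // {d | x d ≠ 0}.Finite}

def B (n : ℕ) : Set (D → ℕ) :=
  {x | (∀ d, x d ≤ n) ∧ ∀ s : Finset D, s.card = n + 1 → ∃ d ∈ s, x d = 0}

theorem B_fin {n : ℕ} {x : D → ℕ} (h : x ∈ B n) : {d | x d ≠ 0}.Finite := by
  by_contra hi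
  obtain ⟨s, hs, hc⟩ := Set.Infinite.exists_subset_card_eq hi (n + 1)
  obtain ⟨d, hd, h0⟩ := h.2 s hc
  exact hs hd h0

theorem B_compact (n : ℕ) : IsCompact (B n) := by
  have h1 : IsCompact (univ.pi fun _ : D => Iic n) :=
    isCompact_univ_pi fun _ => (finite_Iic n).isCompact
  refine h1.of_isClosed_subset ?_ fun x hx d _ => hx.1 d
  have : B n = (⋂ d, (fun x : D → ℕ => x d) ⁻¹' Iic n) ∩
      ⋂ s : Finset D, ⋂ _ : s.card = n + 1, ⋃ d ∈ s, (fun x : D → ℕ => x d) ⁻¹' {0} := by
    ext x; simp [B]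
  rw [this]
  refine (isClosed_iInter fun d => (isClosed_discrete _).preimage (continuous_apply d)).inter
    (isClosed_iInter fun s => isClosed_iInter fun _ => ?_)
  exact s.finite_toSet.isClosed_biUnion fun d _ =>
    (isClosed_discrete _).preimage (continuous_apply d)

instance : SigmaCompactSpace X := by
  refine ⟨⟨fun n => Subtype.val ⁻¹' B n, fun n => ?_, ?_⟩⟩
  · rw [Subtype.isCompact_iff, image_preimage_eq_of_subset]
    · exact B_compact n
    · intro x hx; exact ⟨⟨x, B_fin hx⟩, rfl⟩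
  · refine eq_univ_of_forall fun x => ?_
    obtain ⟨m, hm⟩ := (x.2.image x.1).bddAbove
    refine mem_iUnion.2 ⟨max m x.2.toFinset.card, fun d => ?_, fun s hs => ?_⟩
    · by_cases h : x.1 d = 0
      · simp [h]
      · exact (hm ⟨d, h, rfl⟩).trans (le_max_left _ _)
    · by_contra hc
      push Not at hc
      have : s ⊆ x.2.toFinset := fun d hd => by simpa using hc d hd
      have := Finset.card_le_card this
      omega

def E (g : ℕ → ℕ) : Set X := {x | ∃ n, x.1 (.inl g) = n + 1 ∧ x.1 (.inr n) = g n + 1}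

theorem E_closed (g : ℕ → ℕ) : IsClosed (E g) := by
  rw [← isOpen_compl_iff, isOpen_iff_mem_nhds]
  intro x hx
  have c : ∀ d : D, Continuous fun y : X => y.1 d := fun d =>
    (continuous_apply d).comp continuous_subtype_val
  have o : ∀ d : D, ∀ᶠ y : X in 𝓝 x, y.1 d = x.1 d := fun d =>
    ((isOpen_discrete {x.1 d}).preimage (c d)).mem_nhds rfl
  filter_upwards [o (.inl g), o (.inr (x.1 (.inl g) - 1))] with y h1 h2
  rintro ⟨n, h3, h4⟩
  refine hx ⟨n, h1 ▸ h3, ?_⟩
  have : x.1 (.inl g) - 1 = n := by omega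
  rw [this] at h2
  rw [← h2, h4]

open Classical in
noncomputable def p (g : ℕ → ℕ) (n : ℕ) : X :=
  ⟨fun d => if d = .inl g then n + 1 else if d = .inr n then g n + 1 else 0, by
    refine (toFinite {Sum.inl g, Sum.inr n}).subset fun d hd => ?_
    by_contra h
    simp only [mem_insert_iff, mem_singleton_iff, not_or] at h
    simp [h.1, h.2] at hd⟩

theorem p_mem (g : ℕ → ℕ) (n : ℕ) : p g n ∈ E g := ⟨n, by simp [p], by simp [p]⟩

theorem not_k : ¬ KLindelof X := by
  intro H
  obtain ⟨V, h1, h2, -, -, h3⟩ := H (range fun g => (E g)ᶜ) ⟨by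
      rintro _ ⟨g, rfl⟩; exact (E_closed g).isOpen_compl, by
      rintro ⟨g, hg⟩
      have : p g 0 ∈ (E g)ᶜ := by
        have hg' : (E g)ᶜ = univ := hg
        rw [hg']; trivial
      exact this (p_mem g 0), fun K hK => by
      have : ∀ n : ℕ, ∃ m, ∀ x ∈ K, x.1 (.inr n) ≤ m := fun n => by
        obtain ⟨m, hm⟩ := (hK.image ((continuous_apply (Sum.inr n : D)).comp
          continuous_subtype_val)).finite_of_discrete.bddAbove
        exact ⟨m, fun x hx => hm ⟨x, hx, rfl⟩⟩
      choose g hg using this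
      refine ⟨_, ⟨g, rfl⟩, fun x hx ⟨n, _, h⟩ => ?_⟩
      have := hg n x hx
      omega⟩
  choose G hG using fun v : V => h1 v.2
  have : Countable V := h2.to_subtype
  obtain ⟨k, hk⟩ := exists_injective_nat V
  have hGi : Function.Injective G := fun a b h => Subtype.ext (by rw [← hG a, ← hG b, h])
  have ht : Tendsto (fun v : V => p (G v) (k v)) cofinite (𝓝 ⟨0, by simp⟩) := by
    rw [tendsto_subtype_rng, tendsto_pi_nhds]
    intro d
    rw [nhds_discrete, tendsto_pure, eventually_cofinite]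
    have f1 : {v : V | d = .inl (G v)}.Finite := Set.Subsingleton.finite fun a ha b hb =>
      hGi (Sum.inl_injective (ha.symm.trans hb))
    have f2 : {v : V | d = .inr (k v)}.Finite := Set.Subsingleton.finite fun a ha b hb =>
      hk (Sum.inr_injective (ha.symm.trans hb))
    refine (f1.union f2).subset fun v hv => ?_
    by_contra h
    simp only [mem_union, mem_setOf_eq, not_or] at h
    simp [p, h.1, h.2] at hv
  obtain ⟨u, hu, hK⟩ := h3 _ ht.isCompact_insert_range_of_cofinite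
  have := hK (mem_insert_of_mem _ ⟨⟨u, hu⟩, rfl⟩)
  have e : (E (G ⟨u, hu⟩))ᶜ = u := hG ⟨u, hu⟩
  exact (e.ge this) (p_mem _ _)

/-- A σ-compact Tychonoff space that is `ω`-Lindelöf and not `k`-Lindelöf. -/
theorem result : ∃ (X : Type) (_ : TopologicalSpace X), T35Space X ∧ SigmaCompactSpace X ∧
    OmegaLindelof X ∧ ¬ KLindelof X :=
  ⟨X, inferInstance, inferInstance, inferInstance, omega_of_sigma X, not_k⟩

end Pool.Agent.Results.MP_a2c218_gt.Sigma
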